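import Mathlib

/-!
# Dense vertex sets in graphs with small independence number

Every graph on `n` vertices without an independent set of size `m` has a set of exactly `m`
vertices spanning at least `(1/16) m min(log(n/m), m)` edges, for all `m ≤ n`.
-/

set_option autoImplicit false

universe u

namespace Pool.Agent.Results.MP_5528af_co.AllSizes

open Finset

section helpers

variable {V : Type u} (G : SimpleGraph V)

open Classical in
/-- degree of `v` into the set `U` -/
noncomputable def dg (U : Finset V) (v : V) : ℕ := (U.filter (fun w => G.Adj v w)).card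

open Classical in
/-- number of ordered adjacent pairs inside `U` -/
noncomputable def a (U : Finset V) : ℕ := ∑ v ∈ U, dg G U v

lemma a_eq (S : Finset V) :
    a G S = 2 * (G.induce (S : Set (V))).edgeSet.ncard := by
  classical
  have h := (G.induce (S : Set (V))).sum_degrees_eq_twice_card_edges
  have h2 : (G.induce (S : Set (V))).edgeSet.ncard
      = (G.induce (S : Set (V))).edgeFinset.card := by
    rw [← SimpleGraph.coe_edgeFinset, Set.ncard_coe_finset]
  rw [h2, ← h]
  unfold a
  rw [← Finset.sum_coe_sort S]
  refine Finset.sum_congr rfl ?_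
  rintro ⟨v, hv⟩ _
  rw [← SimpleGraph.card_neighborFinset_eq_degree]
  unfold dg
  refine (Finset.card_bij (fun x _ => x.1) ?_ ?_ ?_).symm
  · rintro ⟨x, hx⟩ hx'
    simp only [SimpleGraph.mem_neighborFinset, SimpleGraph.comap_adj, Function.Embedding.subtype_apply] at hx'
    simp only [Finset.mem_filter]
    exact ⟨by simpa using hx, by simpa using hx'⟩
  · rintro ⟨x, hx⟩ _ ⟨y, hy⟩ _ hxy
    simpa using hxy
  · intro b hb
    simp only [Finset.mem_filter] at hb
    refine ⟨⟨b, by simpa using hb.1⟩, ?_, rfl⟩
    simp only [SimpleGraph.mem_neighborFinset]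
    simpa using hb.2

lemma a_erase [DecidableEq V] (U : Finset V) (v : V) (hv : v ∈ U) :
    a G (U.erase v) + 2 * dg G U v = a G U := by
  classical
  have h1 : ∀ w ∈ U.erase v, dg G U w = dg G (U.erase v) w + (if G.Adj v w then 1 else 0) := by
    intro w hw
    unfold dg
    rw [Finset.filter_erase]
    by_cases h : G.Adj v w
    · have hmem : v ∈ U.filter (fun x => G.Adj w x) := by
        simp [hv, h.symm]
      rw [Finset.card_erase_of_mem hmem]
      have : 0 < (U.filter (fun x => G.Adj w x)).card := Finset.card_pos.mpr ⟨v, hmem⟩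
      simp only [h, if_true]
      omega
    · have hmem : v ∉ U.filter (fun x => G.Adj w x) := by
        intro hh
        exact h (Finset.mem_filter.mp hh).2.symm
      rw [Finset.erase_eq_of_notMem hmem]
      simp [h]
  have h2 : a G U = dg G U v + ∑ w ∈ U.erase v, dg G U w := by
    unfold a
    rw [Finset.add_sum_erase U _ hv]
  rw [h2, Finset.sum_congr rfl h1, Finset.sum_add_distrib]
  have h3 : ∑ w ∈ U.erase v, (if G.Adj v w then 1 else 0) = dg G U v := by
    rw [← Finset.card_filter]
    unfold dg
    congr 1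
    ext w
    simp only [Finset.mem_filter, Finset.mem_erase]
    constructor
    · rintro ⟨⟨_, h⟩, h'⟩; exact ⟨h, h'⟩
    · rintro ⟨h, h'⟩; exact ⟨⟨h'.ne', h⟩, h'⟩
  rw [h3]
  unfold a
  ring

/-- averaging: density is hereditary -/
lemma a_le [DecidableEq V] (m : ℕ) (hm : 2 ≤ m) (A : ℝ) 
    (hA : ∀ S : Finset V, S.card = m → (a G S : ℝ) ≤ A * (m * (m - 1))) :
    ∀ (u : ℕ) (U : Finset V), U.card = u → m ≤ u → (a G U : ℝ) ≤ A * (u * (u - 1)) := by
  intro u
  induction u with
  | zero => intro U hU hmu; omega
  | succ u ih =>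
    intro U hU hmu
    rcases Nat.lt_or_ge u m with h | h
    · have : u + 1 = m := by omega
      subst this
      exact hA U hU
    · have key : ∑ v ∈ U, (a G (U.erase v) : ℝ) = ((u : ℝ) - 1) * a G U := by
        have h1 : ∀ v ∈ U, (a G (U.erase v) : ℝ) = (a G U : ℝ) - 2 * dg G U v := by
          intro v hv
          have := a_erase G U v hv
          have h' : ((a G (U.erase v) + 2 * dg G U v : ℕ) : ℝ) = (a G U : ℝ) := by rw [this]
          push_cast at h'
          linarith
        rw [Finset.sum_congr rfl h1, Finset.sum_sub_distrib, Finset.sum_const, hU,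
          ← Finset.mul_sum]
        have : (∑ v ∈ U, (dg G U v : ℝ)) = (a G U : ℝ) := by
          unfold a; push_cast; rfl
        rw [this]
        simp only [nsmul_eq_mul]
        push_cast
        ring
      have h2 : ∑ v ∈ U, (a G (U.erase v) : ℝ) ≤ ∑ v ∈ U, A * ((u : ℝ) * (u - 1)) := by
        apply Finset.sum_le_sum
        intro v hv
        apply ih (U.erase v) _ h
        rw [Finset.card_erase_of_mem hv, hU]; rfl
      rw [key, Finset.sum_const, hU, nsmul_eq_mul] at h2
      have hu : (0 : ℝ) < (u : ℝ) - 1 := by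
        have : (2 : ℝ) ≤ u := by exact_mod_cast (le_trans hm h)
        linarith
      push_cast at h2 ⊢
      have h3 : ((u : ℝ) - 1) * (a G U : ℝ) ≤ ((u : ℝ) - 1) * (A * (((u : ℝ) + 1) * (u + 1 - 1))) := by
        calc ((u : ℝ) - 1) * (a G U : ℝ) ≤ _ := h2
          _ = _ := by ring
      exact le_of_mul_le_mul_left h3 hu

/-- greedy -/
lemma greedy (m : ℕ) (hm : 2 ≤ m) (p : ℝ) (hp0 : 0 < p) (hp1 : p ≤ 1 / 2)
    (hA : ∀ U : Finset V, m ≤ U.card → (a G U : ℝ) ≤ p * (U.card * (U.card - 1))) :
    ∀ (t : ℕ) (U : Finset V),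
      (m : ℝ) + (1 / p - 1) ≤ ((U.card : ℝ) + (1 / p - 1)) * (1 - p) ^ t →
      ∃ I : Finset V, I ⊆ U ∧ I.card = t ∧ ∀ x ∈ I, ∀ y ∈ I, ¬ G.Adj x y := by
  classical
  intro t
  induction t with
  | zero => intro U _; exact ⟨∅, by simp, rfl, by simp⟩
  | succ t ih =>
    intro U hU
    have hq : 0 ≤ 1 / p - 1 := by
      have : 1 ≤ 1 / p := by
        rw [le_div_iff₀ hp0]; linarith
      linarith
    have h1p : 0 < 1 - p := by linarith
    have hle : ((U.card : ℝ) + (1 / p - 1)) * (1 - p) ^ (t + 1) ≤ (U.card : ℝ) + (1 / p - 1) := by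
      have h0 : 0 ≤ (U.card : ℝ) + (1 / p - 1) := by positivity
      have : (1 - p) ^ (t + 1) ≤ 1 := pow_le_one₀ h1p.le (by linarith)
      calc _ ≤ ((U.card : ℝ) + (1 / p - 1)) * 1 := mul_le_mul_of_nonneg_left this h0
        _ = _ := by ring
    have hmU : m ≤ U.card := by
      have : (m : ℝ) ≤ U.card := by linarith
      exact_mod_cast this
    have haU := hA U hmU
    -- a vertex of small degree
    have hne : U.Nonempty := by
      rw [← Finset.card_pos]; omega
    obtain ⟨v, hv, hdv⟩ : ∃ v ∈ U, (dg G U v : ℝ) ≤ p * (U.card - 1) := by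
      by_contra hcon
      push Not at hcon
      have : ∑ v ∈ U, p * ((U.card : ℝ) - 1) < ∑ v ∈ U, (dg G U v : ℝ) :=
        Finset.sum_lt_sum_of_nonempty hne hcon
      rw [Finset.sum_const, nsmul_eq_mul] at this
      have h' : (∑ v ∈ U, (dg G U v : ℝ)) = (a G U : ℝ) := by
        unfold a; push_cast; rfl
      rw [h'] at this
      nlinarith
    set U' := (U.erase v).filter (fun w => ¬ G.Adj v w) with hU'
    have hcard : (U'.card : ℝ) ≥ (U.card : ℝ) - 1 - dg G U v := by
      have h1 : U'.card + ((U.erase v).filter (fun w => G.Adj v w)).card = (U.erase v).card := by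
        rw [hU', add_comm]
        exact Finset.card_filter_add_card_filter_not (s := U.erase v) (fun w => G.Adj v w)
      have h2 : ((U.erase v).filter (fun w => G.Adj v w)).card ≤ dg G U v := by
        unfold dg
        apply Finset.card_le_card
        intro w hw
        simp only [Finset.mem_filter, Finset.mem_erase] at hw ⊢
        exact ⟨hw.1.2, hw.2⟩
      have h3 : (U.erase v).card = U.card - 1 := Finset.card_erase_of_mem hv
      have h4 : 1 ≤ U.card := Finset.card_pos.mpr hne
      have h5 : U.card ≤ U'.card + dg G U v + 1 := by omega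
      have h6 : (U.card : ℝ) ≤ U'.card + dg G U v + 1 := by exact_mod_cast h5
      linarith
    have hstep : (1 - p) * ((U.card : ℝ) + (1 / p - 1)) ≤ (U'.card : ℝ) + (1 / p - 1) := by
      have hpp : p * (1 / p) = 1 := by field_simp
      nlinarith
    obtain ⟨I, hIU, hIc, hI⟩ := ih U' (by
      calc (m : ℝ) + (1 / p - 1) ≤ ((U.card : ℝ) + (1 / p - 1)) * (1 - p) ^ (t + 1) := hU
        _ = ((1 - p) * ((U.card : ℝ) + (1 / p - 1))) * (1 - p) ^ t := by ring
        _ ≤ ((U'.card : ℝ) + (1 / p - 1)) * (1 - p) ^ t :=
          mul_le_mul_of_nonneg_right hstep (pow_nonneg h1p.le t))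
    have hvI : v ∉ I := by
      intro h
      have := hIU h
      simp [hU'] at this
    refine ⟨insert v I, ?_, ?_, ?_⟩
    · intro x hx
      rcases Finset.mem_insert.mp hx with rfl | hx
      · exact hv
      · have := hIU hx
        simp only [hU', Finset.mem_filter, Finset.mem_erase] at this
        exact this.1.2
    · rw [Finset.card_insert_of_notMem hvI, hIc]
    · have hadj : ∀ x ∈ I, ¬ G.Adj v x := by
        intro x hx
        have := hIU hx
        simp only [hU', Finset.mem_filter] at this
        exact this.2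
      intro x hx y hy
      rcases Finset.mem_insert.mp hx with hx1 | hx1
      · rcases Finset.mem_insert.mp hy with hy1 | hy1
        · rw [hx1, hy1]
          exact G.loopless.irrefl _
        · rw [hx1]
          exact hadj y hy1
      · rcases Finset.mem_insert.mp hy with hy1 | hy1
        · rw [hy1]
          intro h
          exact hadj x hx1 h.symm
        · exact hI x hx1 y hy1

lemma a_mono {S T : Finset V} (h : S ⊆ T) : a G S ≤ a G T := by
  classical
  unfold a
  calc ∑ v ∈ S, dg G S v ≤ ∑ v ∈ S, dg G T v := by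
        apply Finset.sum_le_sum
        intro v _
        unfold dg
        exact Finset.card_le_card (Finset.filter_subset_filter _ h)
    _ ≤ ∑ v ∈ T, dg G T v := Finset.sum_le_sum_of_subset h

/-- matching -/
lemma matching [Fintype V] [DecidableEq V] (m : ℕ) (hm : 2 ≤ m)
    (hS : ∀ S : Finset V, S.card = m → ∃ u ∈ S, ∃ v ∈ S, G.Adj u v) :
    ∀ j : ℕ, m + 2 * j ≤ Fintype.card V + 2 → ∃ T : Finset V, T.card = 2 * j ∧ 2 * j ≤ a G T := by
  classical
  intro j
  induction j with
  | zero => intro _; exact ⟨∅, by simp, by simp⟩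
  | succ j ih =>
    intro hj
    obtain ⟨T, hT, haT⟩ := ih (by omega)
    have hc : m ≤ (Finset.univ \ T).card := by
      rw [Finset.card_sdiff_of_subset (Finset.subset_univ T), Finset.card_univ, hT]
      omega
    obtain ⟨S, hSsub, hSc⟩ := Finset.exists_subset_card_eq hc
    obtain ⟨u, hu, v, hv, huv⟩ := hS S hSc
    have huT : u ∉ T := by
      have := hSsub hu
      simpa using this
    have hvT : v ∉ T := by
      have := hSsub hv
      simpa using this
    have hne : u ≠ v := huv.ne
    have hvI : v ∉ insert u T := by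
      simp [hvT, hne.symm]
    refine ⟨insert v (insert u T), ?_, ?_⟩
    · rw [Finset.card_insert_of_notMem hvI, Finset.card_insert_of_notMem huT, hT]; ring
    · have h1 := a_erase G (insert v (insert u T)) v (Finset.mem_insert_self _ _)
      rw [Finset.erase_insert hvI] at h1
      have h2 : a G T ≤ a G (insert u T) := a_mono G (Finset.subset_insert _ _)
      have h3 : 1 ≤ dg G (insert v (insert u T)) v := by
        unfold dg
        apply Finset.card_pos.mpr
        refine ⟨u, ?_⟩
        simp [huv.symm]
      omega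

end helpers

/-- `e(S)`: the number of edges of `G` with both endpoints in `S`. -/
noncomputable def edgesIn {V : Type u} (G : SimpleGraph V) (S : Finset V) : ℕ :=
  {e : Sym2 V | e ∈ G.edgeSet ∧ ∀ v ∈ e, v ∈ S}.ncard

lemma edgesIn_eq {V : Type u} [Fintype V] (G : SimpleGraph V) (S : Finset V) :
    edgesIn G S = (G.induce (S : Set V)).edgeSet.ncard := by
  classical
  unfold edgesIn
  have h : {e : Sym2 V | e ∈ G.edgeSet ∧ ∀ v ∈ e, v ∈ S}
      = Sym2.map (Subtype.val : ((S : Set V) : Type u) → V) '' (G.induce (S : Set V)).edgeSet := by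
    ext e
    induction e with
    | _ x y =>
      simp only [Set.mem_image]
      constructor
      · rintro ⟨h1, h2⟩
        have hx : x ∈ (S : Set V) := h2 x (by simp)
        have hy : y ∈ (S : Set V) := h2 y (by simp)
        refine ⟨s(⟨x, hx⟩, ⟨y, hy⟩), ?_, by simp⟩
        simpa using h1
      · rintro ⟨f, hf, hfe⟩
        induction f with
        | _ a b =>
          simp only [Sym2.map_mk] at hfe
          rw [← hfe]
          refine ⟨by simpa using hf, ?_⟩
          intro v hv
          rcases Sym2.mem_iff.mp hv with rfl | rfl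
          · exact a.2
          · exact b.2
  rw [h, Set.ncard_image_of_injective _ (Sym2.map.injective Subtype.val_injective)]

/-- For every finite graph `G` on `n` vertices and every `m ≤ n` with `α(G) < m` there is a set `S`
of exactly `m` vertices with `e(S) ≥ (1/16) m min(log(n/m), m)`. -/
theorem result {V : Type u} [Fintype V] (G : SimpleGraph V) (m : ℕ) (hmn : m ≤ Fintype.card V)
    (hα : G.indepNum < m) :
    ∃ S : Finset V, S.card = m ∧
      (1 / 16 : ℝ) * m * min (Real.log ((Fintype.card V : ℝ) / m)) m ≤ edgesIn G S := by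
  classical
  have hS : ∀ S : Finset V, S.card = m → ∃ u ∈ S, ∃ v ∈ S, G.Adj u v := by
    intro S hSc
    by_contra hcon
    push Not at hcon
    have hI : G.IsIndepSet (S : Set V) := by
      intro x hx y hy _
      exact hcon x hx y hy
    have := hI.card_le_indepNum
    omega
  obtain ⟨n, hn⟩ : ∃ n, n = Fintype.card V := ⟨_, rfl⟩
  rw [← hn] at hmn ⊢
  have hm2 : 2 ≤ m := by
    by_contra hlt
    have hm1 : m = 0 ∨ m = 1 := by omega
    rcases hm1 with rfl | rfl
    · omega
    · obtain ⟨x⟩ : Nonempty V := by
        rw [← Fintype.card_pos_iff]; omega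
      obtain ⟨u, hu, v, hv, huv⟩ := hS {x} (by simp)
      simp only [Finset.mem_singleton] at hu hv
      rw [hu, hv] at huv
      exact G.loopless.irrefl _ huv
  set L : ℝ := Real.log ((n : ℝ) / (m : ℝ)) with hL
  have hm0 : (0 : ℝ) < m := by exact_mod_cast (by omega : 0 < m)
  have hn0 : (0 : ℝ) < n := by exact_mod_cast (by omega : 0 < n)
  have hm2' : (2 : ℝ) ≤ m := by exact_mod_cast hm2
  have hmn' : (m : ℝ) ≤ n := by exact_mod_cast hmn
  have hL0 : 0 ≤ L := by
    apply Real.log_nonneg
    rw [le_div_iff₀ hm0]; linarith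
  have hedge : ∀ S : Finset V, (a G S : ℝ) = 2 * (edgesIn G S : ℝ) := by
    intro S
    rw [a_eq, edgesIn_eq]; push_cast; ring
  have hnL : (n : ℝ) = m * Real.exp L := by
    rw [hL, Real.exp_log (by positivity)]; field_simp
  rcases le_or_gt L m with hLn | hLn
  · rw [min_eq_left hLn]
    rcases le_or_gt L 4 with hL4 | hL4
    · -- matching regime
      set j := min (m / 2) ((n - m) / 2 + 1) with hj
      have hj1 : m + 2 * j ≤ Fintype.card V + 2 := by omega
      obtain ⟨T, hT, haT⟩ := matching G m hm2 hS j hj1
      have hTm : T.card ≤ m := by omega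
      obtain ⟨S, hTS, hSc⟩ := Finset.exists_superset_card_eq hTm (by omega)
      refine ⟨S, hSc, ?_⟩
      have h1 : (2 * j : ℝ) ≤ a G S := by
        exact_mod_cast haT.trans (a_mono G hTS)
      have h2 := hedge S
      have h3 : (1 / 16 : ℝ) * m * L ≤ j := by
        have hnm : L ≤ (n : ℝ) / m - 1 := Real.log_le_sub_one_of_pos (by positivity)
        have hnm' : m * L ≤ (n : ℝ) - m := by
          have : (m : ℝ) * ((n : ℝ) / m - 1) = n - m := by field_simp
          nlinarith
        rcases le_total (m / 2) ((n - m) / 2 + 1) with h | h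
        · rw [hj, min_eq_left h]
          have : m ≤ 3 * (m / 2) := by omega
          have : (m : ℝ) ≤ 3 * ((m / 2 : ℕ) : ℝ) := by exact_mod_cast this
          nlinarith
        · rw [hj, min_eq_right h]
          have : n ≤ m + 2 * ((n - m) / 2 + 1) := by omega
          have : (n : ℝ) ≤ m + 2 * (((n - m) / 2 + 1 : ℕ) : ℝ) := by exact_mod_cast this
          nlinarith
      nlinarith
    · by_contra hcon
      push Not at hcon
      have hm1 : (0 : ℝ) < (m : ℝ) - 1 := by linarith
      set p : ℝ := L / (8 * (m - 1)) with hp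
      have hp0 : 0 < p := by positivity
      have hp1 : p ≤ 1 / 2 := by
        rw [hp, div_le_iff₀ (by positivity)]
        nlinarith
      have hdens : ∀ U : Finset V, m ≤ U.card → (a G U : ℝ) ≤ p * (U.card * (U.card - 1)) := by
        intro U hU
        refine a_le G m hm2 p ?_ U.card U rfl hU
        intro S hSc
        have := hcon S hSc
        rw [hedge S]
        have h2 : p * (m * (m - 1)) = L * m / 8 := by
          rw [hp]; field_simp
        rw [h2]
        nlinarith
      obtain ⟨I, _, hIc, hI⟩ := greedy G m hm2 p hp0 hp1 hdens m Finset.univ (by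
        rw [Finset.card_univ, ← hn]
        have h1 : 1 / p ≤ 2 * (m - 1) := by
          rw [hp, one_div_div, div_le_iff₀ (by linarith)]
          nlinarith
        have h1p : 0 < 1 - p := by linarith
        have hexp : Real.exp (-(2 * p)) ≤ 1 - p := by
          rw [Real.exp_neg]
          have h3 : 1 + 2 * p ≤ Real.exp (2 * p) := by
            have := Real.add_one_le_exp (2 * p); linarith
          have h4 : 0 < 1 + 2 * p := by positivity
          calc (Real.exp (2 * p))⁻¹ ≤ (1 + 2 * p)⁻¹ := inv_anti₀ h4 h3
            _ ≤ 1 - p := by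
              rw [inv_le_iff_one_le_mul₀ h4]
              nlinarith
        have hpow : Real.exp (-(L / 2)) ≤ (1 - p) ^ m := by
          calc Real.exp (-(L / 2)) ≤ Real.exp (m * (-(2 * p))) := by
                apply Real.exp_le_exp.mpr
                have : (m : ℝ) * (2 * p) ≤ L / 2 := by
                  rw [hp]
                  have : (m : ℝ) * (2 * (L / (8 * (m - 1)))) = (m * L) / (4 * (m - 1)) := by
                    field_simp; ring
                  rw [this, div_le_iff₀ (by positivity)]
                  nlinarith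
                linarith
            _ = (Real.exp (-(2 * p))) ^ m := by rw [← Real.exp_nat_mul]
            _ ≤ (1 - p) ^ m := pow_le_pow_left₀ (Real.exp_pos _).le hexp m
        have hE2 : (3 : ℝ) ≤ Real.exp (L / 2) := by
          have := Real.add_one_le_exp (L / 2)
          linarith
        have h5 : 3 * (m : ℝ) ≤ n * Real.exp (-(L / 2)) := by
          rw [hnL, mul_assoc, ← Real.exp_add]
          have : L + -(L / 2) = L / 2 := by ring
          rw [this]
          nlinarith
        have hq : 0 ≤ 1 / p - 1 := by
          have : 1 ≤ 1 / p := by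
            rw [le_div_iff₀ hp0]; linarith
          linarith
        calc (m : ℝ) + (1 / p - 1) ≤ 3 * m := by linarith
          _ ≤ n * Real.exp (-(L / 2)) := h5
          _ ≤ n * (1 - p) ^ m := mul_le_mul_of_nonneg_left hpow hn0.le
          _ ≤ ((n : ℝ) + (1 / p - 1)) * (1 - p) ^ m :=
            mul_le_mul_of_nonneg_right (by linarith) (pow_nonneg h1p.le m))
      obtain ⟨u, hu, v, hv, huv⟩ := hS I hIc
      exact hI u hu v hv huv
  · rw [min_eq_right hLn.le]
    by_contra hcon
    push Not at hcon
    have hdens : ∀ U : Finset V, m ≤ U.card →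
        (a G U : ℝ) ≤ (1 / 2) * (U.card * (U.card - 1)) := by
      intro U hU
      refine a_le G m hm2 (1 / 2) ?_ U.card U rfl hU
      intro S hSc
      have := hcon S hSc
      rw [hedge S]
      nlinarith
    obtain ⟨I, _, hIc, hI⟩ := greedy G m hm2 (1 / 2) (by norm_num) le_rfl hdens m Finset.univ (by
      rw [Finset.card_univ, ← hn]
      have e1 : (1 : ℝ) / (1 / 2) - 1 = 1 := by norm_num
      have e2 : (1 : ℝ) - 1 / 2 = 1 / 2 := by norm_num
      rw [e1, e2]
      have h27 : (2.7 : ℝ) ≤ Real.exp 1 := by
        have := Real.exp_one_gt_d9; linarith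
      have h1 : (2.7 : ℝ) ^ m ≤ Real.exp L := by
        calc (2.7 : ℝ) ^ m ≤ (Real.exp 1) ^ m := pow_le_pow_left₀ (by norm_num) h27 m
          _ = Real.exp m := by rw [← Real.exp_nat_mul, mul_one]
          _ ≤ Real.exp L := Real.exp_le_exp.mpr hLn.le
      have h2 : (1 : ℝ) + m * 0.35 ≤ 1.35 ^ m := by
        have := one_add_mul_le_pow (a := (0.35 : ℝ)) (by norm_num) m
        norm_num at this ⊢
        linarith
      have h3 : (1.35 : ℝ) ^ m = 2.7 ^ m * (1 / 2) ^ m := by
        rw [← mul_pow]; norm_num
      have h4 : (m : ℝ) + 1 ≤ m * 1.35 ^ m := by nlinarith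
      have h5 : (0 : ℝ) < (1 / 2) ^ m := by positivity
      calc (m : ℝ) + 1 ≤ m * (2.7 ^ m * (1 / 2) ^ m) := by rw [← h3]; exact h4
        _ = (m * 2.7 ^ m) * (1 / 2) ^ m := by ring
        _ ≤ n * (1 / 2) ^ m := by
          apply mul_le_mul_of_nonneg_right _ h5.le
          rw [hnL]
          exact mul_le_mul_of_nonneg_left h1 hm0.le
        _ ≤ ((n : ℝ) + 1) * (1 / 2) ^ m := mul_le_mul_of_nonneg_right (by linarith) h5.le)
    obtain ⟨u, hu, v, hv, huv⟩ := hS I hIc
    exact hI u hu v hv huv

end Pool.Agent.Results.MP_5528af_co.AllSizes
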